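import Pool.Agent.Results.MP_700e60_co.NotEquivalent
import Pool.Agent.Y713.PT.N
import Pool.Agent.Y713.PT.P

set_option autoImplicit false

/-!
# Partition regularity of `{x, A(x) + B(x) z}` over the positive integers and over `T`

Full (negative) answer to Q1 with a classification. For polynomials `A`, `B` with natural
coefficients, `A(0) = 0`, the pattern `{x, A(x) + B(x) z}` is partition regular over the positive
integers (in the strong sense) as soon as no prime divides all the values of `B`. Over the semiring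
`T` the pattern `{x, A(x) + x ^ l z}` is partition regular if and only if `l = 0`, or `A = 0`, or
`l = 1` and `A` has no linear term, or `A` is congruent to `x` modulo `x ^ (l + 1)`. All other
pairs `(A, l)` are counterexamples to the equivalence.
-/

namespace Pool.Agent.Results.MP_700e60_co.AllTwoTermPatterns

open MvPolynomial Pool.Agent.Results.MP_700e60_co.NotEquivalent Pool.Agent.Y713.PT

/-- The pattern `{x, A(x) + B(x) z}`. -/
noncomputable def twoTerm (A B : Polynomial ℕ) : Fin 2 → MvPolynomial (Fin 2) ℕ :=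
  ![X 0, Polynomial.aeval (X 0) A + Polynomial.aeval (X 0) B * X 1]

/-- The condition for the pattern `{x, A(x) + x ^ l z}` to be regular over `T`: `l = 0`, or
`A = 0`, or `l = 1` and `A` has no linear term, or `A = x + (terms of degree greater than l)`. -/
def Harmless (A : Polynomial ℕ) (l : ℕ) : Prop :=
  l = 0 ∨ A = 0 ∨ (l = 1 ∧ A.coeff 1 = 0) ∨ (A.coeff 1 = 1 ∧ ∀ i, 2 ≤ i → i ≤ l → A.coeff i = 0)

theorem val0 {R : Type} [CommSemiring R] (A B : Polynomial ℕ) (a : Fin 2 → R) :
    aeval a (twoTerm A B 0) = a 0 := by simp [twoTerm]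

theorem val1 {R : Type} [CommSemiring R] (A B : Polynomial ℕ) (a : Fin 2 → R) :
    aeval a (twoTerm A B 1) = Polynomial.aeval (a 0) A + Polynomial.aeval (a 0) B * a 1 := by
  simp [twoTerm, ← Polynomial.aeval_algHom_apply]

theorem isPattern (A B : Polynomial ℕ) (hA : A.coeff 0 = 0) (hB : B ≠ 0) :
    IsPattern (twoTerm A B) := by
  intro i
  fin_cases i
  · exact ⟨by simp [twoTerm], by simp [twoTerm]⟩
  · refine ⟨?_, ?_⟩
    · intro h
      have h2 := congrArg (fun p => aeval (fun _ : Fin 2 => (1 : ℕ)) p) h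
      have h3 := val1 A B (fun _ : Fin 2 => (1 : ℕ))
      have h4 := eval_pos hB one_pos
      simp only [Fin.mk_one, map_zero] at h2
      rw [h3] at h2
      rw [Polynomial.coe_aeval_eq_eval] at h2
      omega
    · have h3 := val1 A B (fun _ : Fin 2 => (0 : ℕ))
      rw [Polynomial.coe_aeval_eq_eval, mul_zero, add_zero,
        ← Polynomial.coeff_zero_eq_eval_zero, hA] at h3
      have h5 : constantCoeff (twoTerm A B 1) = aeval (fun _ : Fin 2 => (0 : ℕ)) (twoTerm A B 1) := by
        rw [← MvPolynomial.eval_zero, MvPolynomial.aeval_def, MvPolynomial.eval]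
        rfl
      exact h5.trans h3

theorem stronglyRegular (A B : Polynomial ℕ) (hB : NoFixedPrime B) :
    StronglyRegular (twoTerm A B) := by
  intro M r c
  have hpos : ∀ x : ℕ, M < x → x ∈ PosNat := fun x hx => show 0 < x by omega
  classical
  by_cases hr : 0 < r
  swap
  · exact absurd (c ⟨1, show (0 : ℕ) < 1 by norm_num⟩).2 (by omega)
  obtain ⟨x, z, h1, h2, h3, h4, h5⟩ := natPart A B M r
    (fun n => if h : n ∈ PosNat then c ⟨n, h⟩ else ⟨0, hr⟩) hB
  have hy : A.eval x + B.eval x * z ∈ PosNat := hpos _ (by omega)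
  rw [dif_pos (hpos x h1), dif_pos hy] at h5
  have e0 : aeval (![x, z] : Fin 2 → ℕ) (twoTerm A B 0) = x := by rw [val0]; rfl
  have e1 : aeval (![x, z] : Fin 2 → ℕ) (twoTerm A B 1) = A.eval x + B.eval x * z := by
    rw [val1, Polynomial.coe_aeval_eq_eval]; rfl
  refine ⟨![x, z], ?_, ?_, ?_, c ⟨x, hpos x h1⟩, ?_⟩
  · intro k; fin_cases k
    · exact h1
    · exact h2
  · intro k l hkl
    fin_cases k <;> fin_cases l <;> simp at hkl ⊢ <;> omega
  · intro k l hkl
    fin_cases k <;> fin_cases l
    · rfl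
    · exact absurd ((e0.symm.trans hkl).trans e1) h4.ne
    · exact absurd ((e0.symm.trans hkl.symm).trans e1) h4.ne
    · rfl
  · intro k
    fin_cases k
    · refine ⟨e0.symm ▸ hpos x h1, ?_⟩
      congr 1
      exact Subtype.ext e0
    · refine ⟨e1.symm ▸ hy, ?_⟩
      rw [h5]
      congr 1
      exact Subtype.ext e1

theorem regular_iff (A B : Polynomial ℕ) :
    PartitionRegularOver T (twoTerm A B) ↔ ∀ (r : ℕ) (c : {f : Polynomial ℕ // TT f} → Fin r),
      ∃ (x z : Polynomial ℕ) (hx : TT x) (_ : TT z) (hy : TT (A.comp x + B.comp x * z)),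
        c ⟨x, hx⟩ = c ⟨A.comp x + B.comp x * z, hy⟩ := by
  have e1 : ∀ a : Fin 2 → Polynomial ℕ, aeval a (twoTerm A B 1) =
      A.comp (a 0) + B.comp (a 0) * a 1 := fun a => val1 A B a
  constructor
  · intro h r c
    obtain ⟨a, ha, j, hj⟩ := h r (fun f => c ⟨f.1, f.2⟩)
    obtain ⟨h0, c0⟩ := hj 0
    obtain ⟨h1, c1⟩ := hj 1
    have hv : TT (A.comp (a 0) + B.comp (a 0) * a 1) := e1 a ▸ h1
    refine ⟨a 0, a 1, ha 0, ha 1, hv, ?_⟩
    have i0 : c ⟨a 0, ha 0⟩ = j := by
      rw [← c0]; congr 1; exact Subtype.ext (val0 A B a).symm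
    have i1 : c ⟨A.comp (a 0) + B.comp (a 0) * a 1, hv⟩ = j := by
      rw [← c1]; congr 1; exact Subtype.ext (e1 a).symm
    rw [i0, i1]
  · intro h r c
    obtain ⟨x, z, hx, hz, hy, hc⟩ := h r (fun f => c ⟨f.1, f.2⟩)
    have f0 : aeval (![x, z] : Fin 2 → Polynomial ℕ) (twoTerm A B 0) = x := val0 A B ![x, z]
    have f1 : aeval (![x, z] : Fin 2 → Polynomial ℕ) (twoTerm A B 1) = A.comp x + B.comp x * z :=
      e1 ![x, z]
    refine ⟨![x, z], ?_, c ⟨x, hx⟩, ?_⟩
    · intro i; fin_cases i
      · exact hx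
      · exact hz
    · intro k
      fin_cases k
      · refine ⟨f0.symm ▸ hx, ?_⟩
        congr 1
        exact Subtype.ext f0
      · refine ⟨f1.symm ▸ hy, ?_⟩
        have hc' : c ⟨x, hx⟩ = c ⟨A.comp x + B.comp x * z, hy⟩ := hc
        rw [hc']
        congr 1
        exact Subtype.ext f1

theorem not_regular (A B : Polynomial ℕ) (hA : A.coeff 0 = 0)
    (h : ¬ Harmless A B.natTrailingDegree) : ¬ PartitionRegularOver T (twoTerm A B) := by
  rw [regular_iff]
  unfold Harmless at h
  push Not at h
  obtain ⟨hl, hA0, h1, h2⟩ := h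
  have hBl : ∀ i < B.natTrailingDegree, B.coeff i = 0 := fun i hi =>
    Polynomial.coeff_eq_zero_of_lt_natTrailingDegree hi
  obtain ⟨r, col, hcol⟩ : ∃ (r : ℕ) (col : Polynomial ℕ → Fin r), ∀ x z : Polynomial ℕ,
      TT x → TT z → col x ≠ col (A.comp x + B.comp x * z) := by
    rcases Nat.lt_trichotomy (A.coeff 1) 1 with ha | ha | ha
    · have ha0 : A.coeff 1 = 0 := by omega
      have hl2 : 2 ≤ B.natTrailingDegree := by
        by_contra hlt
        exact h1 (by omega) ha0
      exact neg2 hA ha0 hA0 hBl hl2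
    · obtain ⟨s, hs⟩ := h2 ha
      obtain ⟨col, hcol⟩ := neg3 hA ha hBl ⟨s, hs⟩
      exact ⟨2, col, hcol⟩
    · obtain ⟨col, hcol⟩ := neg1 hA hBl (Nat.one_le_iff_ne_zero.2 hl) ha
      exact ⟨2, col, hcol⟩
  intro hreg
  obtain ⟨x, z, hx, hz, hy, hc⟩ := hreg r (fun f => col f.1)
  exact hcol x z hx hz hc

theorem regular_of_harmless (A : Polynomial ℕ) (l : ℕ) (hA : A.coeff 0 = 0) (h : Harmless A l) :
    PartitionRegularOver T (twoTerm A (Polynomial.X ^ l)) := by
  rw [regular_iff]
  simp only [Polynomial.X_pow_comp]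
  apply chain
  intro N
  rcases Nat.eq_zero_or_pos l with rfl | hl
  · exact pos0 A hA N
  rcases h with h | h | ⟨h, h'⟩ | ⟨h, h'⟩
  · omega
  · subst h; exact posZ l hl N
  · subst h
    obtain ⟨A', hA'⟩ := (Polynomial.X_pow_dvd_iff (n := 2)).2 (show ∀ d < 2, A.coeff d = 0 by
      intro d hd
      interval_cases d
      · exact hA
      · exact h')
    subst hA'
    exact posY A' N
  · obtain ⟨m, rfl⟩ : ∃ m, l = m + 1 := ⟨l - 1, by omega⟩
    obtain ⟨A1, hA1⟩ := dec (A := A) (k := 1) (fun i hi => by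
      rw [Nat.lt_one_iff.1 hi]; exact hA)
    have e : A = Polynomial.X + Polynomial.X ^ 2 * A1 := by
      conv_lhs => rw [hA1, h]
      rw [Polynomial.C_1]; ring
    obtain ⟨A', hA'⟩ := (Polynomial.X_pow_dvd_iff (n := m + 2) (f := Polynomial.X ^ 2 * A1)).2 (by
      intro d hd
      by_cases h2 : d < 2
      · rw [Polynomial.coeff_X_pow_mul', if_neg (by omega)]
      · have h4 := h' d (by omega) (by omega)
        rw [e, Polynomial.coeff_add] at h4
        omega)
    rw [hA'] at e
    subst e
    exact posX A' m N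

/-- **Full (negative) answer to Q1, with a classification.**
(1) Over the positive integers: if `A(0) = 0` and no prime divides all the values of `B` then
`{x, A(x) + B(x) z}` is a polynomial pattern and is partition regular, even with variables larger
than any given bound, pairwise distinct, and with distinct values.
(2) Over `T`: `{x, A(x) + x ^ l z}` is partition regular if and only if `(A, l)` is harmless.
(3) More generally, `{x, A(x) + B(x) z}` is not partition regular over `T` when `(A, l)` is not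
harmless, `l` the order of vanishing of `B` at zero.
(4) So for all such `A`, `B` the pattern is partition regular over the positive integers and not
over `T`; for every degree `l ≥ 2` there are infinitely many such patterns with `B = x ^ l`.
(5) Regularity over the positive integers is not equivalent to regularity over `T`. -/
theorem result :
    (∀ A B : Polynomial ℕ, A.coeff 0 = 0 → NoFixedPrime B →
      IsPattern (twoTerm A B) ∧ StronglyRegular (twoTerm A B) ∧
        PartitionRegularOver PosNat (twoTerm A B)) ∧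
    (∀ (A : Polynomial ℕ) (l : ℕ), A.coeff 0 = 0 →
      (PartitionRegularOver T (twoTerm A (Polynomial.X ^ l)) ↔ Harmless A l)) ∧
    (∀ A B : Polynomial ℕ, A.coeff 0 = 0 → ¬ Harmless A B.natTrailingDegree →
      ¬ PartitionRegularOver T (twoTerm A B)) ∧
    (∀ l : ℕ, 2 ≤ l → {A : Polynomial ℕ | A.coeff 0 = 0 ∧
      PartitionRegularOver PosNat (twoTerm A (Polynomial.X ^ l)) ∧
      ¬ PartitionRegularOver T (twoTerm A (Polynomial.X ^ l))}.Infinite) ∧
    ¬ ∀ (m k : ℕ) (P : Fin k → MvPolynomial (Fin m) ℕ), IsPattern P →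
      (PartitionRegularOver T P ↔ PartitionRegularOver PosNat P) := by
  have hX : ∀ l : ℕ, NoFixedPrime (Polynomial.X ^ l) := fun l p hp =>
    ⟨1, by simpa using hp.one_lt.ne'⟩
  have h1 : ∀ A B : Polynomial ℕ, A.coeff 0 = 0 → NoFixedPrime B →
      IsPattern (twoTerm A B) ∧ StronglyRegular (twoTerm A B) ∧
        PartitionRegularOver PosNat (twoTerm A B) := fun A B hA hB =>
    ⟨isPattern A B hA hB.ne_zero, stronglyRegular A B hB,
      regular_of_strong _ (stronglyRegular A B hB)⟩
  have h3 := not_regular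
  have htr : ∀ l : ℕ, (Polynomial.X ^ l : Polynomial ℕ).natTrailingDegree = l := fun l => by
    simp
  have h2 : ∀ (A : Polynomial ℕ) (l : ℕ), A.coeff 0 = 0 →
      (PartitionRegularOver T (twoTerm A (Polynomial.X ^ l)) ↔ Harmless A l) := by
    intro A l hA
    refine ⟨fun h => ?_, regular_of_harmless A l hA⟩
    by_contra hc
    exact not_regular A (Polynomial.X ^ l) hA (by rwa [htr]) h
  have h4 : ∀ l : ℕ, 2 ≤ l → {A : Polynomial ℕ | A.coeff 0 = 0 ∧
      PartitionRegularOver PosNat (twoTerm A (Polynomial.X ^ l)) ∧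
      ¬ PartitionRegularOver T (twoTerm A (Polynomial.X ^ l))}.Infinite := by
    intro l hl
    refine Set.infinite_of_injective_forall_mem (f := fun n : ℕ => (Polynomial.X ^ (n + 2) :
      Polynomial ℕ)) ?_ ?_
    · intro a b hab
      have := congrArg Polynomial.natDegree hab
      simpa using this
    · intro n
      have h0 : (Polynomial.X ^ (n + 2) : Polynomial ℕ).coeff 0 = 0 := by simp
      refine ⟨h0, (h1 _ _ h0 (hX l)).2.2, ?_⟩
      rw [h2 _ _ h0]
      unfold Harmless
      have e1 : (Polynomial.X ^ (n + 2) : Polynomial ℕ).coeff 1 = 0 := by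
        rw [Polynomial.coeff_X_pow, if_neg (by omega)]
      rintro (h | h | ⟨h, -⟩ | ⟨h, -⟩)
      · omega
      · exact pow_ne_zero _ Polynomial.X_ne_zero h
      · omega
      · omega
  refine ⟨h1, h2, h3, h4, ?_⟩
  intro hall
  obtain ⟨A, hA, hA1, hA2⟩ := (h4 2 le_rfl).nonempty
  exact hA2 ((hall 2 2 _ (isPattern A _ hA (hX 2).ne_zero)).2 hA1)

end Pool.Agent.Results.MP_700e60_co.AllTwoTermPatterns
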